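import Pool.Agent.Helper10.DP2.Mod311

set_option autoImplicit false

namespace Pool.Agent.Helper8.DP2

open H10

namespace H10

/-- the check at one point -/
def ok3 (x y z : ℕ) : Bool :=
  !((sN 7 2 x y z 3 == sN 7 2 x y z 4) && ((sN 7 2 x y z 1 == sN 7 2 x y z 2) &&
    (sN 7 2 x y z 0 == sN 7 2 x y z 5)))

theorem all3 : allN 7 2 ok3 = true := by decide +kernel

theorem sN_le (m n x y z : ℕ) (i : Fin 7) : sN m n x y z i < 2 := by
  unfold sN
  split_ifs <;> norm_num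

theorem cls_eq_iff (m n x y z : ℕ) (i j : Fin 7) :
    cls (m : ℤ) (n : ℤ) (x : ZMod 311) (y : ZMod 311) (z : ZMod 311) i =
      cls (m : ℤ) (n : ℤ) (x : ZMod 311) (y : ZMod 311) (z : ZMod 311) j ↔
      sN m n x y z i = sN m n x y z j := by
  rw [cls_cast, cls_cast, ZMod.natCast_eq_natCast_iff', Nat.mod_eq_of_lt (sN_le m n x y z i),
    Nat.mod_eq_of_lt (sN_le m n x y z j)]

end H10

/-- case `(m,n,d) = (7,2,-311)` -/
theorem c3_upper (x y z : ZMod 311) (h : Nrm x y z) (hF : F 7 2 x y z = 0) :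
    ¬ (cls 7 2 x y z 3 = cls 7 2 x y z 4 ∧ cls 7 2 x y z 1 = cls 7 2 x y z 2 ∧
      cls 7 2 x y z 0 = cls 7 2 x y z 5) := by
  obtain ⟨x', y', z', hx, hy, hz, ho⟩ := of_allN (m := 7) (n := 2) all3 x y z h hF
  rintro ⟨h1, h2, h3⟩
  subst hx hy hz
  have k1 := (cls_eq_iff 7 2 x' y' z' 3 4).mp (by exact_mod_cast h1)
  have k2 := (cls_eq_iff 7 2 x' y' z' 1 2).mp (by exact_mod_cast h2)
  have k3 := (cls_eq_iff 7 2 x' y' z' 0 5).mp (by exact_mod_cast h3)
  simp only [ok3, k1, k2, k3, beq_self_eq_true, Bool.and_self, Bool.not_true] at ho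
  exact absurd ho (by simp)

end Pool.Agent.Helper8.DP2
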