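import Pool.Agent.Helper10.DP2.Mod311

set_option autoImplicit false

namespace Pool.Agent.Helper8.DP2

open H10

namespace H10

/-- the sign vectors -/
def rvN (a b c : ℕ) : Fin 7 → ℕ := ![a, b, b, c, c, a, a * b + b * c + c * a]

theorem rv_cast (a b c : ZMod 2) (i : Fin 7) :
    rvec a b c i = ((rvN a.val b.val c.val i : ℕ) : ZMod 2) := by
  fin_cases i <;> simp [rvec, rvN]

/-- the check at one point -/
def ok6 (x y z : ℕ) : Bool :=
  (List.range 2).all (fun a => (List.range 2).all (fun b => (List.range 2).all (fun c =>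
    (List.finRange 7).any (fun j =>
      (sN 3 1 x y z j + rvN a b c j + (sN 3 1 x y z 6 + rvN a b c 6)) % 2 == 1))))

theorem all6 : allN 3 1 ok6 = true := by decide +kernel

end H10

/-- case `(m,n,d) = (3,1,-311)` -/
theorem c6_upper (x y z : ZMod 311) (h : Nrm x y z) (hF : F 3 1 x y z = 0) (a b c : ZMod 2) :
    ∃ j : Fin 7, cls 3 1 x y z j + rvec a b c j ≠ cls 3 1 x y z 6 + rvec a b c 6 := by
  obtain ⟨x', y', z', hx, hy, hz, ho⟩ := of_allN (m := 3) (n := 1) all6 x y z h hF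
  have h1 := List.all_eq_true.mp ho a.val (List.mem_range.mpr (ZMod.val_lt a))
  have h2 := List.all_eq_true.mp h1 b.val (List.mem_range.mpr (ZMod.val_lt b))
  have h3 := List.all_eq_true.mp h2 c.val (List.mem_range.mpr (ZMod.val_lt c))
  obtain ⟨j, _, hj⟩ := List.any_eq_true.mp h3
  have hj' : (sN 3 1 x' y' z' j + rvN a.val b.val c.val j +
    (sN 3 1 x' y' z' 6 + rvN a.val b.val c.val 6)) % 2 = 1 := by simpa using hj
  refine ⟨j, ?_⟩
  intro heq
  have c1 := cls_cast 3 1 x' y' z' j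
  have c2 := cls_cast 3 1 x' y' z' 6
  rw [hx, hy, hz] at c1 c2
  have c1' : cls 3 1 x y z j = ((sN 3 1 x' y' z' j : ℕ) : ZMod 2) := by exact_mod_cast c1
  have c2' : cls 3 1 x y z 6 = ((sN 3 1 x' y' z' 6 : ℕ) : ZMod 2) := by exact_mod_cast c2
  rw [c1', c2', rv_cast, rv_cast] at heq
  have h4 : (((sN 3 1 x' y' z' j + rvN a.val b.val c.val j +
    (sN 3 1 x' y' z' 6 + rvN a.val b.val c.val 6) : ℕ)) : ZMod 2) = 0 := by
    push_cast
    rw [heq]
    exact CharTwo.add_self_eq_zero _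
  have h5 := (ZMod.natCast_eq_zero_iff _ 2).mp h4
  omega

end Pool.Agent.Helper8.DP2
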