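import Pool.Agent.Helper8.DP2.Defs

set_option autoImplicit false

/-!
Arithmetic modulo 311 on natural numbers (for the finite checks DQ-C6u and DQ-C3u).
-/

namespace Pool.Agent.Helper8.DP2.H10

open Pool.Agent.Helper8.DP2

/-- bit mask of the squares modulo 311 -/
def msk : ℕ := 2078324295002967906675417127137446608237556201913708522805967218795826856807595375343302655

theorem msk_of_sq : (List.range 311).all (fun r => Nat.testBit msk (r * r % 311)) = true := by
  decide +kernel

theorem sq_of_msk : (List.range 311).all (fun v => !(Nat.testBit msk v) ||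
    (List.range 311).any (fun r => r * r % 311 == v)) = true := by
  decide +kernel

theorem neg_one_311 : (310 : ZMod 311) = -1 := by decide

theorem isSquare_cast (v : ℕ) (hv : v < 311) :
    IsSquare ((v : ℕ) : ZMod 311) ↔ Nat.testBit msk v = true := by
  constructor
  · rintro ⟨r, hr⟩
    have h1 := List.all_eq_true.mp msk_of_sq r.val (List.mem_range.mpr (ZMod.val_lt r))
    have h2 : ((r.val * r.val % 311 : ℕ) : ZMod 311) = ((v : ℕ) : ZMod 311) := by
      rw [hr, ZMod.natCast_mod]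
      push_cast
      simp
    have h3 : r.val * r.val % 311 = v := by
      have h4 := (ZMod.natCast_eq_natCast_iff' _ _ 311).mp h2
      rw [Nat.mod_mod, Nat.mod_eq_of_lt hv] at h4
      exact h4
    rw [h3] at h1
    exact h1
  · intro h
    have h1 := List.all_eq_true.mp sq_of_msk v (List.mem_range.mpr hv)
    rw [h] at h1
    simp only [Bool.not_true, Bool.false_or] at h1
    obtain ⟨r, _, hr⟩ := List.any_eq_true.mp h1
    have hr' : r * r % 311 = v := by simpa using hr
    refine ⟨(r : ZMod 311), ?_⟩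
    rw [← hr', ZMod.natCast_mod]
    push_cast
    rfl

/-- the linear forms -/
def lN (m n x y z : ℕ) : Fin 7 → ℕ :=
  ![m * x + 310 * n * y, n * x + m * y, m * y + 310 * n * z, n * y + m * z,
    m * z + 310 * n * x, n * z + m * x, x + y + z]

/-- `m^4+m^2n^2+n^4` -/
def kN (m n : ℕ) : ℕ := m ^ 4 + m ^ 2 * n ^ 2 + n ^ 4

/-- minus the companion forms -/
def cN (m n x y z : ℕ) : Fin 7 → ℕ :=
  ![310 * (4 * kN m n * ((m * x + n * y) * (n * x + 310 * m * y) * (n * x + m * y))),
    310 * (4 * kN m n * ((m * x + 310 * n * y) * (m * x + n * y) * (n * x + 310 * m * y))),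
    310 * (4 * kN m n * ((m * y + n * z) * (n * y + 310 * m * z) * (n * y + m * z))),
    310 * (4 * kN m n * ((m * y + 310 * n * z) * (m * y + n * z) * (n * y + 310 * m * z))),
    310 * (4 * kN m n * ((m * z + n * x) * (n * z + 310 * m * x) * (n * z + m * x))),
    310 * (4 * kN m n * ((m * z + 310 * n * x) * (m * z + n * x) * (n * z + 310 * m * x))),
    kN m n * ((310 * x + y + z) * (x + 310 * y + z) * (x + y + 310 * z))]

/-- the quartic form -/
def fN (m n x y z : ℕ) : ℕ :=
  (m ^ 2 + n ^ 2) ^ 2 * (x ^ 4 + y ^ 4 + z ^ 4) +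
    310 * (2 * (m ^ 4 + n ^ 4) * (x ^ 2 * y ^ 2 + y ^ 2 * z ^ 2 + z ^ 2 * x ^ 2))

/-- the reduced entries -/
def rN (m n x y z : ℕ) (i : Fin 7) : ℕ :=
  if lN m n x y z i % 311 = 0 then cN m n x y z i % 311 else lN m n x y z i % 311

/-- the classes -/
def sN (m n x y z : ℕ) (i : Fin 7) : ℕ :=
  if Nat.testBit msk (rN m n x y z i) = true then 0 else 1

theorem lin_cast (m n x y z : ℕ) (i : Fin 7) :
    lin (m : ℤ) (n : ℤ) (x : ZMod 311) (y : ZMod 311) (z : ZMod 311) i =
      ((lN m n x y z i : ℕ) : ZMod 311) := by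
  fin_cases i <;> simp [lin, lN, neg_one_311] <;> ring

theorem com_cast (m n x y z : ℕ) (i : Fin 7) :
    -(com (m : ℤ) (n : ℤ) (x : ZMod 311) (y : ZMod 311) (z : ZMod 311) i) =
      ((cN m n x y z i : ℕ) : ZMod 311) := by
  fin_cases i <;> simp [com, cN, kap, kN, neg_one_311] <;> ring

theorem F_cast (m n x y z : ℕ) :
    F (m : ℤ) (n : ℤ) (x : ZMod 311) (y : ZMod 311) (z : ZMod 311) =
      ((fN m n x y z : ℕ) : ZMod 311) := by
  simp [F, fN, neg_one_311]
  ring

theorem red_cast (m n x y z : ℕ) (i : Fin 7) :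
    red (m : ℤ) (n : ℤ) (x : ZMod 311) (y : ZMod 311) (z : ZMod 311) i =
      ((rN m n x y z i : ℕ) : ZMod 311) := by
  unfold red rN
  rw [lin_cast]
  by_cases h : lN m n x y z i % 311 = 0
  · have h1 : ((lN m n x y z i : ℕ) : ZMod 311) = 0 :=
      (ZMod.natCast_eq_zero_iff _ 311).mpr (Nat.dvd_of_mod_eq_zero h)
    rw [if_neg (by simpa using h1), if_pos h, com_cast, ZMod.natCast_mod]
  · have h1 : ((lN m n x y z i : ℕ) : ZMod 311) ≠ 0 := by
      intro h2
      exact h (Nat.mod_eq_zero_of_dvd ((ZMod.natCast_eq_zero_iff _ 311).mp h2))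
    rw [if_pos h1, if_neg h, ZMod.natCast_mod]

theorem rN_lt (m n x y z : ℕ) (i : Fin 7) : rN m n x y z i < 311 := by
  unfold rN
  split_ifs <;> exact Nat.mod_lt _ (by norm_num)

theorem cls_cast (m n x y z : ℕ) (i : Fin 7) :
    cls (m : ℤ) (n : ℤ) (x : ZMod 311) (y : ZMod 311) (z : ZMod 311) i =
      ((sN m n x y z i : ℕ) : ZMod 2) := by
  unfold cls sN
  rw [red_cast]
  by_cases h : Nat.testBit msk (rN m n x y z i) = true
  · rw [if_pos ((isSquare_cast _ (rN_lt m n x y z i)).mpr h), if_pos h, Nat.cast_zero]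
  · rw [if_neg (fun h' => h ((isSquare_cast _ (rN_lt m n x y z i)).mp h')), if_neg h,
      Nat.cast_one]

/-- points of the curve in normalised coordinates -/
def allN (m n : ℕ) (ok : ℕ → ℕ → ℕ → Bool) : Bool :=
  (List.range 311).all (fun y => (List.range 311).all (fun z =>
    !(fN m n 1 y z % 311 == 0) || ok 1 y z)) &&
  (List.range 311).all (fun z => !(fN m n 0 1 z % 311 == 0) || ok 0 1 z) &&
  (!(fN m n 0 0 1 % 311 == 0) || ok 0 0 1)

theorem of_allN {m n : ℕ} {ok : ℕ → ℕ → ℕ → Bool} (h : allN m n ok = true)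
    (x y z : ZMod 311) (hn : Nrm x y z) (hF : F (m : ℤ) (n : ℤ) x y z = 0) :
    ∃ x' y' z' : ℕ, (x' : ZMod 311) = x ∧ (y' : ZMod 311) = y ∧ (z' : ZMod 311) = z ∧
      ok x' y' z' = true := by
  unfold allN at h
  rw [Bool.and_eq_true, Bool.and_eq_true] at h
  obtain ⟨⟨h1, h2⟩, h3⟩ := h
  have key : ∀ x' y' z' : ℕ, (x' : ZMod 311) = x → (y' : ZMod 311) = y → (z' : ZMod 311) = z →
      (!(fN m n x' y' z' % 311 == 0) || ok x' y' z') = true → ok x' y' z' = true := by
    intro x' y' z' hx hy hz ho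
    rw [← hx, ← hy, ← hz, F_cast] at hF
    have h4 := Nat.mod_eq_zero_of_dvd ((ZMod.natCast_eq_zero_iff _ 311).mp hF)
    rw [h4] at ho
    simpa using ho
  have cy : ((y.val : ℕ) : ZMod 311) = y := by simp
  have cz : ((z.val : ℕ) : ZMod 311) = z := by simp
  rcases hn with hx | ⟨hx, hy⟩ | ⟨hx, hy, hz⟩
  · refine ⟨1, y.val, z.val, by simp [hx], cy, cz, key _ _ _ (by simp [hx]) cy cz ?_⟩
    have h5 := List.all_eq_true.mp h1 y.val (List.mem_range.mpr (ZMod.val_lt y))
    exact List.all_eq_true.mp h5 z.val (List.mem_range.mpr (ZMod.val_lt z))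
  · refine ⟨0, 1, z.val, by simp [hx], by simp [hy], cz,
      key _ _ _ (by simp [hx]) (by simp [hy]) cz ?_⟩
    exact List.all_eq_true.mp h2 z.val (List.mem_range.mpr (ZMod.val_lt z))
  · exact ⟨0, 0, 1, by simp [hx], by simp [hy], by simp [hz],
      key _ _ _ (by simp [hx]) (by simp [hy]) (by simp [hz]) h3⟩

end Pool.Agent.Helper8.DP2.H10
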